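import Mathlib

/-!
# o-conjugacy on finite semigroups: the quotient is always cancellative

For a semigroup `S`, two elements `a b` are *o-conjugate*, written `a ∼ₒ b`, if there are
`g h : S` with `a * g = g * b` and `b * h = h * a`.

We prove: if `S` is a finite semigroup on which `∼ₒ` is a congruence, then `S / ∼ₒ` is
cancellative.  (In fact it is a group as soon as `S` is nonempty, see `group_of_nonempty`.)
This answers, in the negative, the question whether there is a finite semigroup on which `∼ₒ`
is a congruence with a non-cancellative quotient.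

The proof: any two idempotents `e, f` are o-conjugate through `g = e * f`, `h = f * e`, and any
`a` is o-conjugate to `a * e`, where `e = a ^ ω` is its idempotent power, through `g = h = e`.
-/

namespace Pool.Agent.Results.MP_393150_al.OConjFiniteCancel

/-- o-conjugacy in a semigroup `S`: `a ∼ₒ b` iff there are `g h : S` (no identity adjoined)
with `a * g = g * b` and `b * h = h * a`. -/
def OConj {S : Type*} [Semigroup S] (a b : S) : Prop :=
  ∃ g h : S, a * g = g * b ∧ b * h = h * a

section aux

variable {S : Type*} [Semigroup S]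

/-- Any two idempotents are o-conjugate. -/
theorem oConj_of_idem {e f : S} (he : e * e = e) (hf : f * f = f) : OConj e f := by
  refine ⟨e * f, f * e, ?_, ?_⟩
  · rw [← mul_assoc, he, mul_assoc, hf]
  · rw [← mul_assoc, hf, mul_assoc, he]

/-- If `e` is an idempotent commuting with `a`, then `a` is o-conjugate to `a * e`. -/
theorem oConj_mul_idem {a e : S} (he : e * e = e) (hae : a * e = e * a) : OConj a (a * e) := by
  refine ⟨e, e, ?_, ?_⟩
  · rw [hae, ← mul_assoc, he]
  · rw [mul_assoc, he, hae]

/-- `ppow a n` is the positive power `a ^ (n + 1)`. -/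
def ppow (a : S) : ℕ → S
  | 0 => a
  | n + 1 => ppow a n * a

theorem ppow_add (a : S) (m n : ℕ) : ppow a m * ppow a n = ppow a (m + n + 1) := by
  induction n with
  | zero => rfl
  | succ n ih =>
    change ppow a m * (ppow a n * a) = ppow a (m + n + 1) * a
    rw [← mul_assoc, ih]

theorem ppow_comm (a : S) (m n : ℕ) : ppow a m * ppow a n = ppow a n * ppow a m := by
  rw [ppow_add, ppow_add, Nat.add_comm m n]

/-- In a finite semigroup each `a` has an idempotent `e` commuting with it, together with `b`
such that `a * b = e = b * a`. -/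
theorem exists_idem [Finite S] (a : S) :
    ∃ e b : S, e * e = e ∧ a * e = e * a ∧ a * b = e ∧ b * a = e := by
  -- pigeonhole
  obtain ⟨i, j, hij, hpij⟩ := Finite.exists_ne_map_eq_of_infinite (ppow a)
  wlog hlt : i < j generalizing i j
  · exact this j i hij.symm hpij.symm (lt_of_le_of_ne (not_lt.mp hlt) hij.symm)
  obtain ⟨d, rfl⟩ : ∃ d, j = i + (d + 1) := ⟨j - i - 1, by omega⟩
  -- the powers are periodic from index `i` on, with period `d + 1`
  have hper : ∀ k, ppow a (i + k) = ppow a (i + k + (d + 1)) := by
    intro k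
    induction k with
    | zero => simpa using hpij
    | succ k ih =>
      have h1 : i + (k + 1) + (d + 1) = (i + k + (d + 1)) + 1 := by omega
      rw [h1]
      change ppow a (i + k) * a = ppow a (i + k + (d + 1)) * a
      rw [← ih]
  have key : ∀ t n, i ≤ n → ppow a n = ppow a (n + t * (d + 1)) := by
    intro t
    induction t with
    | zero => intro n _; simp
    | succ t ih =>
      intro n hn
      rw [ih n hn]
      obtain ⟨k, hk⟩ := Nat.exists_eq_add_of_le (Nat.le_trans hn (Nat.le_add_right n (t * (d + 1))))
      rw [hk, hper k, ← hk, Nat.succ_mul, Nat.add_assoc]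
  -- `w + 1` is a positive multiple of `d + 1` with `w ≥ i + 1`
  obtain ⟨w, hw1, hwi⟩ : ∃ w, w + 1 = (i + 2) * (d + 1) ∧ i + 1 ≤ w := by
    have h1 : i + 2 ≤ (i + 2) * (d + 1) := Nat.le_mul_of_pos_right _ (Nat.succ_pos d)
    exact ⟨(i + 2) * (d + 1) - 1, by omega, by omega⟩
  obtain ⟨v, rfl⟩ : ∃ v, w = v + 1 := ⟨w - 1, by omega⟩
  refine ⟨ppow a (v + 1), ppow a v, ?_, ppow_comm a 0 (v + 1), ?_, ?_⟩
  · rw [ppow_add, Nat.add_assoc (v + 1), hw1, ← key (i + 2) (v + 1) (by omega)]
  · have := ppow_add a 0 v
    rwa [Nat.zero_add] at this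
  · rfl

end aux

/-- If `∼ₒ` is a congruence on a nonempty finite semigroup `S`, then `S / ∼ₒ` is a group: it
has a two-sided identity, and all elements have two-sided inverses. -/
theorem group_of_nonempty {S : Type*} [Semigroup S] [Finite S] [Nonempty S]
    (c : Con S) (hc : ∀ a b : S, c a b ↔ OConj a b) :
    ∃ one : c.Quotient, (∀ x, one * x = x ∧ x * one = x) ∧
      ∀ x, ∃ y, x * y = one ∧ y * x = one := by
  obtain ⟨a₀⟩ := ‹Nonempty S›
  obtain ⟨e₀, -, he₀, -, -, -⟩ := exists_idem a₀
  refine ⟨(e₀ : c.Quotient), ?_, ?_⟩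
  · intro x
    induction x using Con.induction_on with
    | H a =>
    obtain ⟨e, b, he, hae, -, -⟩ := exists_idem a
    have h1 : ((a * e : S) : c.Quotient) = (a : c.Quotient) :=
      ((Con.eq c).2 ((hc _ _).2 (oConj_mul_idem he hae))).symm
    have h2 : ((e₀ : S) : c.Quotient) = (e : c.Quotient) :=
      (Con.eq c).2 ((hc _ _).2 (oConj_of_idem he₀ he))
    constructor
    · rw [h2, ← h1, ← Con.coe_mul]
      congr 1
      rw [hae, ← mul_assoc, he]
    · rw [h2, ← Con.coe_mul, h1]
  · intro x
    induction x using Con.induction_on with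
    | H a =>
    obtain ⟨e, b, he, hae, hab, hba⟩ := exists_idem a
    have h2 : ((e₀ : S) : c.Quotient) = (e : c.Quotient) :=
      (Con.eq c).2 ((hc _ _).2 (oConj_of_idem he₀ he))
    refine ⟨(b : c.Quotient), ?_, ?_⟩
    · rw [h2, ← Con.coe_mul, hab]
    · rw [h2, ← Con.coe_mul, hba]

/-- **Main result.** For every finite semigroup `S` on which o-conjugacy is a congruence, the
quotient semigroup `S / ∼ₒ` is cancellative. -/
theorem result (S : Type*) [Semigroup S] [Finite S]
    (c : Con S) (hc : ∀ a b : S, c a b ↔ OConj a b) :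
    IsCancelMul c.Quotient := by
  rcases isEmpty_or_nonempty S with hS | hS
  · have hE : ∀ x : c.Quotient, False := by
      intro x
      induction x using Con.induction_on with
      | H a => exact hS.elim a
    exact { mul_left_cancel := fun x => (hE x).elim, mul_right_cancel := fun x => (hE x).elim }
  · obtain ⟨one, h1, hinv⟩ := group_of_nonempty c hc
    refine { mul_left_cancel := ?_, mul_right_cancel := ?_ }
    · intro x y z hxyz
      obtain ⟨x', -, hx'⟩ := hinv x
      have : x' * (x * y) = x' * (x * z) := congrArg (x' * ·) hxyz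
      rwa [← mul_assoc, ← mul_assoc, hx', (h1 y).1, (h1 z).1] at this
    · intro x y z hxyz
      obtain ⟨x', hx', -⟩ := hinv x
      have : (y * x) * x' = (z * x) * x' := congrArg (· * x') hxyz
      rwa [mul_assoc, mul_assoc, hx', (h1 y).2, (h1 z).2] at this

end Pool.Agent.Results.MP_393150_al.OConjFiniteCancel
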